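import Pool.Agent.W684.SG.Proj

/-!
# Abstract projective sets: the positive answer under the continuum hypothesis
-/

set_option autoImplicit false

namespace Pool.Agent.W684.SG

open Cardinal MeasureTheory

/-- CH: at most continuum many subsets of a set of size continuum belong to a countably generated
sigma-algebra -/
theorem ch_generated (hCH : (ℵ₁ : Cardinal.{0}) = 𝔠) (E : Type) (hE : #E = 𝔠) (G : Set (Set E)) (hG : #G ≤ 𝔠) :
    ∃ B : ℕ → Set E, ∀ S ∈ G, MeasurableSet[MeasurableSpace.generateFrom (Set.range B)] S := by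
  classical
  let W : Type := (ℵ₁ : Cardinal.{0}).ord.ToType
  have hW : #W = ℵ₁ := Cardinal.mk_ord_toType _
  obtain ⟨e⟩ : Nonempty (E ≃ W) := Cardinal.eq.1 (by rw [hE, hW, hCH])
  obtain ⟨i⟩ : Nonempty (G ↪ W) := by
    rw [← Cardinal.le_def, hW, hCH]
    exact hG
  obtain ⟨j⟩ : Nonempty (E ≃ (ℕ → Bool)) := Cardinal.eq.1 (by rw [hE]; simp)
  have hIio : ∀ ξ : W, (Set.Iio ξ).Countable := by
    intro ξ
    have h : #(Set.Iio ξ) < Order.succ ℵ₀ := by
      rw [Cardinal.succ_aleph0]
      exact Cardinal.mk_Iio_toType_ord_lt ξ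
    rw [Order.lt_succ_iff, Cardinal.le_aleph0_iff_set_countable] at h
    exact h
  let S : W → Set E := fun ξ => {x | ∃ g : G, i g = ξ ∧ x ∈ g.1}
  have hS : ∀ g : G, S (i g) = g.1 := by
    intro g
    ext x
    constructor
    · rintro ⟨g', h, hx⟩
      rw [i.injective h] at hx
      exact hx
    · exact fun hx => ⟨g, rfl, hx⟩
  have henum : ∀ η : E, ∃ h : ℕ → Option W, ∀ ξ, (ξ < e η ∧ η ∈ S ξ) ↔ ∃ n, h n = some ξ := by
    intro η
    have hc : {ξ : W | ξ < e η ∧ η ∈ S ξ}.Countable := (hIio (e η)).mono fun ξ h => h.1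
    have : Countable {ξ : W | ξ < e η ∧ η ∈ S ξ} := hc
    obtain ⟨enc⟩ := nonempty_encodable {ξ : W | ξ < e η ∧ η ∈ S ξ}
    refine ⟨fun n => (Encodable.decode (α := {ξ : W | ξ < e η ∧ η ∈ S ξ}) n).map Subtype.val,
      fun ξ => ⟨fun h => ?_, ?_⟩⟩
    · refine ⟨Encodable.encode (⟨ξ, h⟩ : {ξ : W | ξ < e η ∧ η ∈ S ξ}), ?_⟩
      simp
    · rintro ⟨n, hn⟩
      simp only [Option.map_eq_some_iff] at hn
      obtain ⟨a, -, rfl⟩ := hn
      exact a.2
  choose h hh using henum
  let B' : (ℕ ⊕ ℕ) ⊕ (ℕ × ℕ) → Set E := fun m => match m with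
    | Sum.inl (Sum.inl k) => {x | j x k = true}
    | Sum.inl (Sum.inr n) => {x | ∃ ξ, h x n = some ξ}
    | Sum.inr (n, k) => {x | ∃ ξ, h x n = some ξ ∧ j (e.symm ξ) k = true}
  let eqv := Denumerable.eqv ((ℕ ⊕ ℕ) ⊕ (ℕ × ℕ))
  refine ⟨fun m => B' (eqv.symm m), ?_⟩
  let mE : MeasurableSpace E := MeasurableSpace.generateFrom (Set.range fun m => B' (eqv.symm m))
  have hB : ∀ m, MeasurableSet (B' m) := by
    intro m
    refine MeasurableSpace.measurableSet_generateFrom ⟨eqv m, ?_⟩
    simp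
  have hsing : ∀ x : E, MeasurableSet ({x} : Set E) := by
    intro x
    have h1 : ({x} : Set E) = ⋂ k : ℕ, {x' | j x' k = j x k} := by
      ext x'
      simp only [Set.mem_singleton_iff, Set.mem_iInter, Set.mem_ofPred_eq]
      constructor
      · rintro rfl k
        rfl
      · intro h
        exact j.injective (funext h)
    rw [h1]
    refine MeasurableSet.iInter fun k => ?_
    by_cases hk : j x k = true
    · rw [hk]
      exact hB (Sum.inl (Sum.inl k))
    · have h2 : {x' | j x' k = j x k} = (B' (Sum.inl (Sum.inl k)))ᶜ := by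
        ext x'
        simp only [Bool.not_eq_true] at hk
        simp [B', hk]
      rw [h2]
      exact (hB (Sum.inl (Sum.inl k))).compl
  have hcount : ∀ T : Set E, T.Countable → MeasurableSet T := by
    intro T hT
    rw [← Set.biUnion_of_singleton T]
    exact MeasurableSet.biUnion hT fun x _ => hsing x
  have hfib : ∀ n ξ, MeasurableSet {η : E | h η n = some ξ} := by
    intro n ξ
    have h1 : {η : E | h η n = some ξ} = B' (Sum.inl (Sum.inr n)) ∩
        ⋂ k : ℕ, {η | (η ∈ B' (Sum.inr (n, k)) ↔ j (e.symm ξ) k = true)} := by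
      ext η
      simp only [Set.mem_inter_iff, Set.mem_iInter, Set.mem_ofPred_eq]
      constructor
      · intro h2
        refine ⟨⟨ξ, h2⟩, fun k => ⟨?_, fun h3 => ⟨ξ, h2, h3⟩⟩⟩
        rintro ⟨ξ', h3, h4⟩
        rw [h2] at h3
        have : ξ = ξ' := by simpa using h3
        rw [this]
        exact h4
      · rintro ⟨⟨ξ', h2⟩, h3⟩
        have h4 : j (e.symm ξ') = j (e.symm ξ) := by
          funext k
          have h5 := h3 k
          by_cases h6 : j (e.symm ξ') k = true
          · have := h5.1 ⟨ξ', h2, h6⟩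
            rw [h6, this]
          · have h7 : ¬ j (e.symm ξ) k = true := by
              intro h8
              obtain ⟨ξ'', h9, h10⟩ := h5.2 h8
              rw [h2] at h9
              have : ξ' = ξ'' := by simpa using h9
              rw [← this] at h10
              exact h6 h10
            simp only [Bool.not_eq_true] at h6 h7
            rw [h6, h7]
        have h5 : ξ' = ξ := e.symm.injective (j.injective h4)
        rw [← h5]
        exact h2
    rw [h1]
    refine (hB (Sum.inl (Sum.inr n))).inter (MeasurableSet.iInter fun k => ?_)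
    by_cases hk : j (e.symm ξ) k = true
    · have h2 : {η | (η ∈ B' (Sum.inr (n, k)) ↔ j (e.symm ξ) k = true)} =
          B' (Sum.inr (n, k)) := by
        ext η
        simp only [Set.mem_ofPred_eq, hk, iff_true]
      rw [h2]
      exact hB (Sum.inr (n, k))
    · have h2 : {η | (η ∈ B' (Sum.inr (n, k)) ↔ j (e.symm ξ) k = true)} =
          (B' (Sum.inr (n, k)))ᶜ := by
        ext η
        simp only [Set.mem_ofPred_eq, hk, Set.mem_compl_iff]
        constructor
        · exact fun h3 h4 => absurd (h3.1 h4) (by simp)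
        · exact fun h3 => ⟨fun h4 => absurd h4 h3, fun h4 => absurd h4 (by simp)⟩
      rw [h2]
      exact (hB (Sum.inr (n, k))).compl
  intro T hT
  have h1 : T = {η | η ∈ T ∧ e η ≤ i ⟨T, hT⟩} ∪ ⋃ n : ℕ, {η : E | h η n = some (i ⟨T, hT⟩)} := by
    ext η
    simp only [Set.mem_union, Set.mem_iUnion, Set.mem_ofPred_eq]
    constructor
    · intro hη
      by_cases h2 : e η ≤ i ⟨T, hT⟩
      · exact Or.inl ⟨hη, h2⟩
      · refine Or.inr ((hh η _).1 ⟨not_le.1 h2, ?_⟩)
        rw [hS]
        exact hη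
    · rintro (h2 | h2)
      · exact h2.1
      · have := ((hh η _).2 h2).2
        rw [hS] at this
        exact this
  rw [h1]
  refine (hcount _ ?_).union (MeasurableSet.iUnion fun n => hfib n _)
  have h2 : (Set.Iic (i ⟨T, hT⟩)).Countable := by
    rw [← Set.Iio_insert]
    exact (hIio _).insert _
  refine (h2.preimage e.injective).mono fun η hη => hη.2

theorem projClass_le {E : Type} (A : ℕ → Set E) (k : ℕ) :
    ∀ n, #(ProjClass A k n) ≤ 𝔠 := by
  induction k with
  | zero =>
    intro n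
    have h1 : ProjClass A 0 n ⊆ (fun S => proj S) ''
        {S : Set (Fin (n + 1) → E) | MeasurableSet[rect A (n + 1)] S} := by
      rintro T ⟨S, hS, rfl⟩
      exact ⟨S, hS, rfl⟩
    refine (Cardinal.mk_le_mk_of_subset h1).trans (Cardinal.mk_image_le.trans ?_)
    refine MeasurableSpace.cardinal_measurableSet_le_continuum ?_
    refine le_trans ?_ Cardinal.aleph0_le_continuum
    rw [Cardinal.le_aleph0_iff_set_countable]
    have h2 : {S : Set (Fin (n + 1) → E) | ∃ m : Fin (n + 1) → ℕ, S = {x | ∀ i, x i ∈ A (m i)}} =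
        Set.range fun m : Fin (n + 1) → ℕ => {x : Fin (n + 1) → E | ∀ i, x i ∈ A (m i)} := by
      ext S
      simp only [Set.mem_ofPred_eq, Set.mem_range, eq_comm]
    rw [h2]
    exact Set.countable_range _
  | succ k ih =>
    intro n
    have h1 : ProjClass A (k + 1) n ⊆ (fun S => proj Sᶜ) '' ProjClass A k (n + 1) := by
      rintro T ⟨S, hS, rfl⟩
      exact ⟨S, hS, rfl⟩
    exact (Cardinal.mk_le_mk_of_subset h1).trans (Cardinal.mk_image_le.trans (ih (n + 1)))

theorem projective_le {E : Type} (A : ℕ → Set E) : #{S : Set E | ProjectiveOver A S} ≤ 𝔠 := by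
  have h1 : {S : Set E | ProjectiveOver A S} =
      ⋃ k : ℕ, {S : Set E | {x : Fin 1 → E | x 0 ∈ S} ∈ ProjClass A k 1} := by
    ext S
    simp only [Set.mem_iUnion, Set.mem_ofPred_eq, ProjectiveOver]
  rw [h1]
  refine (Cardinal.mk_iUnion_le_sum_mk).trans ?_
  have h2 : ∀ k : ℕ, #{S : Set E | {x : Fin 1 → E | x 0 ∈ S} ∈ ProjClass A k 1} ≤ 𝔠 := by
    intro k
    refine le_trans ?_ (projClass_le A k 1)
    refine Cardinal.mk_le_of_injective (f := fun S => ⟨{x : Fin 1 → E | x 0 ∈ S.1}, S.2⟩) ?_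
    intro S S' h
    have h3 : {x : Fin 1 → E | x 0 ∈ S.1} = {x : Fin 1 → E | x 0 ∈ S'.1} := congrArg Subtype.val h
    apply Subtype.ext
    ext x
    have h4 : (fun _ : Fin 1 => x) ∈ {x : Fin 1 → E | x 0 ∈ S.1} ↔
        (fun _ : Fin 1 => x) ∈ {x : Fin 1 → E | x 0 ∈ S'.1} := by rw [h3]
    exact h4
  refine (Cardinal.sum_le_sum _ (fun _ => 𝔠) h2).trans ?_
  simp

theorem projective_pos (hCH : (ℵ₁ : Cardinal.{0}) = 𝔠) (E : Type) (hE : #E = 𝔠) (A : ℕ → Set E) :
    ∃ B : ℕ → Set E, ∀ S : Set E, ProjectiveOver A S →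
      MeasurableSet[MeasurableSpace.generateFrom (Set.range B)] S :=
  ch_generated hCH E hE _ (projective_le A)

end Pool.Agent.W684.SG
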