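import Pool.Agent.W684.SG.Stm

/-!
# Countably generated sigma-algebras and analytic sets: the codes of analytic sets
-/

set_option autoImplicit false

namespace Pool.Agent.W684.SG

open Cardinal MeasureTheory

/-- the closed set of the pairs -/
def Pairs (y : Finset ℕ → List ℕ → Prop) : Set ((ℕ → Bool) × (ℕ → ℕ)) :=
  {p | ∀ (a : Finset ℕ) (l : List ℕ), (∀ i, i ∈ a ↔ i < l.length ∧ p.1 i = true) →
    (∀ i, i < l.length → p.2 i = l.getD i 0) → y a l}

theorem isClosed_pairs (y : Finset ℕ → List ℕ → Prop) : IsClosed (Pairs y) := by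
  have h : Pairs y = ⋂ a : Finset ℕ, ⋂ l : List ℕ,
      {p : (ℕ → Bool) × (ℕ → ℕ) | (∀ i, i ∈ a ↔ i < l.length ∧ p.1 i = true) →
        (∀ i, i < l.length → p.2 i = l.getD i 0) → y a l} := by
    ext p
    simp only [Pairs, Set.mem_iInter, Set.mem_ofPred_eq]
  rw [h]
  refine isClosed_iInter fun a => isClosed_iInter fun l => ?_
  rw [← isOpen_compl_iff, isOpen_iff_mem_nhds]
  intro p hp
  simp only [Set.mem_compl_iff, Set.mem_ofPred_eq, Classical.not_imp] at hp
  obtain ⟨h1, h2, h3⟩ := hp
  have e1 : ∀ᶠ p' : (ℕ → Bool) × (ℕ → ℕ) in nhds p, ∀ i ∈ Finset.range l.length,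
      p'.1 i = p.1 i := by
    rw [Filter.eventually_all_finset]
    intro i _
    have hc : Continuous fun p' : (ℕ → Bool) × (ℕ → ℕ) => p'.1 i :=
      (continuous_apply i).comp continuous_fst
    exact hc.continuousAt.preimage_mem_nhds ((isOpen_discrete {p.1 i}).mem_nhds rfl)
  have e2 : ∀ᶠ p' : (ℕ → Bool) × (ℕ → ℕ) in nhds p, ∀ i ∈ Finset.range l.length,
      p'.2 i = p.2 i := by
    rw [Filter.eventually_all_finset]
    intro i _
    have hc : Continuous fun p' : (ℕ → Bool) × (ℕ → ℕ) => p'.2 i :=
      (continuous_apply i).comp continuous_snd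
    exact hc.continuousAt.preimage_mem_nhds ((isOpen_discrete {p.2 i}).mem_nhds rfl)
  filter_upwards [e1, e2] with p' h4 h5
  simp only [Set.mem_compl_iff, Set.mem_ofPred_eq, Classical.not_imp]
  refine ⟨fun i => ?_, fun i hi => ?_, h3⟩
  · rw [h1 i]
    constructor
    · rintro ⟨hi, h⟩
      exact ⟨hi, by rw [h4 i (Finset.mem_range.2 hi)]; exact h⟩
    · rintro ⟨hi, h⟩
      exact ⟨hi, by rw [← h4 i (Finset.mem_range.2 hi)]; exact h⟩
  · rw [h5 i (Finset.mem_range.2 hi)]
    exact h2 i hi

theorem polish_bool : PolishSpace (ℕ → Bool) := by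
  have h1 : TopologicalSpace.SeparableSpace (ℕ → Bool) := inferInstance
  have h2 : TopologicalSpace.IsCompletelyMetrizableSpace (ℕ → Bool) := inferInstance
  exact inferInstance

theorem polish_prod : PolishSpace ((ℕ → Bool) × (ℕ → ℕ)) := by
  have h1 : TopologicalSpace.SeparableSpace (ℕ → Bool) := inferInstance
  have h2 : TopologicalSpace.IsCompletelyMetrizableSpace (ℕ → Bool) := inferInstance
  have h3 : TopologicalSpace.SeparableSpace (ℕ → ℕ) := inferInstance
  have h4 : TopologicalSpace.IsCompletelyMetrizableSpace (ℕ → ℕ) := inferInstance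
  have h5 : TopologicalSpace.IsCompletelyMetrizableSpace ((ℕ → Bool) × (ℕ → ℕ)) := inferInstance
  exact inferInstance

theorem code_iff : S_CODE := by
  intro T
  constructor
  · intro hT
    rw [AnalyticSet] at hT
    rcases hT with rfl | ⟨f, hf, rfl⟩
    · refine ⟨fun _ _ => False, fun x => ⟨fun h => absurd h (by simp), ?_⟩⟩
      rintro ⟨w, hw⟩
      exact (hw ∅ [] (by simp) (by simp)).elim
    · refine ⟨fun a l => ∃ w : ℕ → ℕ, (∀ i, i < l.length → w i = l.getD i 0) ∧
        ∀ i, i < l.length → (i ∈ a ↔ f w i = true), fun x => ⟨?_, ?_⟩⟩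
      · rintro ⟨w, rfl⟩
        exact ⟨w, fun a l ha hl => ⟨w, hl, fun i hi => by rw [ha i]; simp [hi]⟩⟩
      · rintro ⟨w, hw⟩
        refine ⟨w, ?_⟩
        have h : ∀ n : ℕ, ∃ v : ℕ → ℕ, (∀ i, i < n → v i = w i) ∧ ∀ i, i < n → f v i = x i := by
          intro n
          obtain ⟨v, hv1, hv2⟩ := hw ((Finset.range n).filter fun i => x i = true)
            ((List.range n).map w) (by
              intro i
              simp) (by
              intro i hi
              simp only [List.length_map, List.length_range] at hi
              simp [List.getD, hi])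
          simp only [List.length_map, List.length_range, Finset.mem_filter, Finset.mem_range]
            at hv1 hv2
          refine ⟨v, fun i hi => ?_, fun i hi => ?_⟩
          · rw [hv1 i hi]
            simp [List.getD, hi]
          · have h1 := hv2 i hi
            simp only [hi, true_and] at h1
            by_cases h2 : x i = true
            · rw [h2]
              exact h1.1 h2
            · have h3 : ¬ f v i = true := fun h => h2 (h1.2 h)
              simp only [Bool.not_eq_true] at h2 h3
              rw [h2, h3]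
        choose v hv1 hv2 using h
        have t1 : Filter.Tendsto v Filter.atTop (nhds w) := by
          rw [tendsto_pi_nhds]
          intro i
          refine tendsto_const_nhds.congr' ?_
          filter_upwards [Filter.eventually_gt_atTop i] with n hn
          exact (hv1 n i hn).symm
        have t2 : Filter.Tendsto (fun n => f (v n)) Filter.atTop (nhds x) := by
          rw [tendsto_pi_nhds]
          intro i
          refine tendsto_const_nhds.congr' ?_
          filter_upwards [Filter.eventually_gt_atTop i] with n hn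
          exact (hv2 n i hn).symm
        exact tendsto_nhds_unique ((hf.tendsto w).comp t1) t2
  · rintro ⟨y, hy⟩
    have h : T = Prod.fst '' Pairs y := by
      ext x
      rw [hy x]
      constructor
      · rintro ⟨w, hw⟩
        exact ⟨(x, w), hw, rfl⟩
      · rintro ⟨⟨x', w⟩, hw, rfl⟩
        exact ⟨w, hw⟩
    rw [h]
    have := polish_prod
    exact (isClosed_pairs y).analyticSet.image_of_continuous continuous_fst

end Pool.Agent.W684.SG
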