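import Pool.Agent.W684.SG.Stm

/-!
# Countably generated sigma-algebras and analytic sets: the forcing argument
-/

set_option autoImplicit false

namespace Pool.Agent.W684.SG

open Cardinal Pool.Agent.Helper669.Forcing

universe u

section Gen

variable {P : Type u} [Preorder P]

theorem mem_fiff {φ ψ : Set P} {p : P} : p ∈ fiff φ ψ ↔ p ∈ fimp φ ψ ∧ p ∈ fimp ψ φ := Iff.rfl

theorem down_fiff (φ ψ : Set P) : Down (fiff φ ψ) := down_fand (down_fimp _ _) (down_fimp _ _)

theorem down_InAnN (x : ℕ → Set P) (y : Finset ℕ → List ℕ → Set P) : Down (InAnN x y) :=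
  down_fex _

theorem down_InSetN (A : (ℕ → Set P) → Set P) (x : ℕ → Set P) : Down (InSetN A x) := down_fex _

/-- a sentence forced by densely many conditions is forced -/
theorem fimp_reg {φ ψ : Set P} (hφ : Down φ) {p : P} (h : ∀ q ≤ p, ∃ r ≤ q, r ∈ fimp φ ψ) :
    p ∈ fimp φ ψ := by
  refine mem_fimp.2 fun q hq hqφ => ?_
  obtain ⟨r, hr, h'⟩ := h q hq
  obtain ⟨s, hs, hs'⟩ := mem_fimp.1 h' r le_rfl (hφ _ hqφ _ hr)
  exact ⟨s, hs.trans hr, hs'⟩

theorem fiff_reg {φ ψ : Set P} (hφ : Down φ) (hψ : Down ψ) {p : P}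
    (h : ∀ q ≤ p, ∃ r ≤ q, r ∈ fiff φ ψ) : p ∈ fiff φ ψ := by
  constructor
  · refine fimp_reg hφ fun q hq => ?_
    obtain ⟨r, hr, h'⟩ := h q hq
    exact ⟨r, hr, h'.1⟩
  · refine fimp_reg hψ fun q hq => ?_
    obtain ⟨r, hr, h'⟩ := h q hq
    exact ⟨r, hr, h'.2⟩

theorem fex_reg {ι : Sort*} {φ : ι → Set P} {p : P} (h : ∀ q ≤ p, ∃ r ≤ q, r ∈ fex φ) :
    p ∈ fex φ := by
  refine mem_fex.2 fun q hq => ?_
  obtain ⟨r, hr, h'⟩ := h q hq
  obtain ⟨s, hs, h''⟩ := mem_fex.1 h' r le_rfl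
  exact ⟨s, hs.trans hr, h''⟩

theorem meets_fex {ι : Sort*} (φ : ι → Set P) : meets (fex φ) = fex φ := by
  ext p
  constructor
  · intro h
    refine fex_reg fun q hq => ?_
    obtain ⟨r, hr, s, hs, hrs⟩ := h q hq
    exact ⟨r, hr, down_fex _ _ hs _ hrs⟩
  · exact meets_of_mem

theorem meets_InSetN (A : (ℕ → Set P) → Set P) (x : ℕ → Set P) :
    meets (InSetN A x) = InSetN A x := meets_fex _

theorem dec_dense {φ : Set P} (p : P) : ∃ q ≤ p, q ∈ φ ∨ q ∈ fnot φ := by
  by_cases h : p ∈ fnot φ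
  · exact ⟨p, le_rfl, Or.inr h⟩
  · simp only [fnot, Set.mem_ofPred_eq, not_forall, not_not] at h
    obtain ⟨q, hq, h⟩ := h
    exact ⟨q, hq, Or.inl h⟩

theorem down_dec {φ : Set P} (h : Down φ) : Down {q | q ∈ φ ∨ q ∈ fnot φ} := by
  rintro p (hp | hp) q hq
  · exact Or.inl (h _ hp _ hq)
  · exact Or.inr (down_fnot _ _ hp _ hq)

/-- what it means that the statement is not forced -/
theorem neg_phi {p0 : P} (h : p0 ∉ PhiHolds P) :
    ∃ p ≤ p0, ∃ A : ℕ → (ℕ → Set P) → Set P, ∀ r ≤ p, ∀ y : Finset ℕ → List ℕ → Set P,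
      ∃ r' ≤ r, ∃ b b' : Finset ℕ → List ℕ → Set P,
        (∀ x : ℕ → Set P, r' ∈ fiff (InAnN (fun n => meets (x n)) b')
          (fnot (InAnN (fun n => meets (x n)) b))) ∧
        ∀ x : ℕ → Set P, r' ∈ fiff (InAnN (fun n => meets (x n)) y)
          (InAnN (fun n => InSetN (A n) x) b) := by
  unfold PhiHolds at h
  rw [mem_fall] at h
  push Not at h
  obtain ⟨A, h⟩ := h
  rw [mem_fex] at h
  push Not at h
  obtain ⟨p, hp, h⟩ := h
  refine ⟨p, hp, A, fun r hr y => ?_⟩
  have h1 := h r hr y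
  rw [mem_fall] at h1
  push Not at h1
  obtain ⟨b, h1⟩ := h1
  rw [mem_fall] at h1
  push Not at h1
  obtain ⟨b', h1⟩ := h1
  rw [mem_fimp] at h1
  push Not at h1
  obtain ⟨r1, hr1, h2, h3⟩ := h1
  have h4 := h3 r1 le_rfl
  rw [mem_fex] at h4
  push Not at h4
  obtain ⟨r2, hr2, h5⟩ := h4
  refine ⟨r2, hr2.trans hr1, b, b', fun x => down_fiff _ _ _ (h2 x) _ hr2, fun x => ?_⟩
  refine fiff_reg (down_InAnN _ _) (down_InAnN _ _) fun q hq => ?_
  have h6 := h5 q hq x
  simp only [fnot, Set.mem_ofPred_eq, not_forall, not_not] at h6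
  obtain ⟨r3, hr3, h6⟩ := h6
  exact ⟨r3, hr3, h6⟩

end Gen

/-- the empty condition -/
def Cond.one (K : Type u) : Cond K where
  val _ _ := none
  cnt := by simp
  inf _ N := ⟨N, le_rfl, rfl⟩

open Classical in
/-- the condition `q` on `M`, `r` outside of `M` -/
noncomputable def glue {K : Type u} (M : Set K) (q r : Cond K) : Cond K where
  val k n := if k ∈ M then q.val k n else r.val k n
  cnt := by
    refine (q.cnt.union r.cnt).mono ?_
    rintro k ⟨n, hn⟩
    by_cases h : k ∈ M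
    · exact Or.inl ⟨n, by simpa only [h, if_true] using hn⟩
    · exact Or.inr ⟨n, by simpa only [h, if_false] using hn⟩
  inf := by
    intro k N
    by_cases h : k ∈ M
    · obtain ⟨n, hn, h'⟩ := q.inf k N
      exact ⟨n, hn, by simp only [h, if_true, h']⟩
    · obtain ⟨n, hn, h'⟩ := r.inf k N
      exact ⟨n, hn, by simp only [h, if_false, h']⟩

theorem glue_mem {K : Type u} {M : Set K} {q r : Cond K} {k : K} (h : k ∈ M) (n : ℕ) :
    (glue M q r).val k n = q.val k n := by simp only [glue, h, if_true]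

theorem glue_not_mem {K : Type u} {M : Set K} {q r : Cond K} {k : K} (h : k ∉ M) (n : ℕ) :
    (glue M q r).val k n = r.val k n := by simp only [glue, h, if_false]

theorem exists_split {K : Type u} (q : Cond K) (α : K) :
    ∃ f : ℕ → ℕ, StrictMono f ∧ ∀ i, q.val α (f i) = none := by
  have h : ∀ N, ∃ n, N < n ∧ q.val α n = none := fun N => by
    obtain ⟨n, hn, h⟩ := q.inf α (N + 1)
    exact ⟨n, by omega, h⟩
  choose g hg using h
  refine ⟨fun i => Nat.rec (g 0) (fun _ m => g m) i, strictMono_nat_of_lt_succ fun n => ?_, ?_⟩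
  · exact (hg _).1
  · intro i
    cases i with
    | zero => exact (hg _).2
    | succ i => exact (hg _).2

open Classical in
/-- the condition `q`, with the points `f (2 i)` of the column `α` decided by `t` -/
noncomputable def code {K : Type u} (q : Cond K) (α : K) (f : ℕ → ℕ) (hf : StrictMono f)
    (hq : ∀ i, q.val α (f i) = none) (t : ℕ → Prop) : Cond K where
  val k n := if h : k = α ∧ ∃ i, f (2 * i) = n then some (decide (t h.2.choose)) else q.val k n
  cnt := by
    refine (q.cnt.union (Set.countable_singleton α)).mono ?_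
    rintro k ⟨n, hn⟩
    by_cases h : k = α
    · exact Or.inr h
    · refine Or.inl ⟨n, ?_⟩
      simpa only [h, false_and, dif_neg, not_false_eq_true] using hn
  inf := by
    intro k N
    by_cases h : k = α
    · subst h
      refine ⟨f (2 * N + 1), ?_, ?_⟩
      · have := hf.id_le (2 * N + 1)
        simp only [id] at this
        omega
      · rw [dif_neg]
        · exact hq _
        · rintro ⟨-, i, hi⟩
          have := hf.injective hi
          omega
    · obtain ⟨n, hn, h'⟩ := q.inf k N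
      refine ⟨n, hn, ?_⟩
      rw [dif_neg]
      · exact h'
      · exact fun h'' => h h''.1

open Classical in
theorem code_val {K : Type u} (q : Cond K) (α : K) (f : ℕ → ℕ) (hf : StrictMono f)
    (hq : ∀ i, q.val α (f i) = none) (t : ℕ → Prop) (i : ℕ) :
    (code q α f hf hq t).val α (f (2 * i)) = some (decide (t i)) := by
  have h : α = α ∧ ∃ j, f (2 * j) = f (2 * i) := ⟨rfl, i, rfl⟩
  have h' : (code q α f hf hq t).val α (f (2 * i)) = some (decide (t h.2.choose)) :=
    dif_pos h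
  have h'' : h.2.choose = i := by
    have := hf.injective h.2.choose_spec
    omega
  rw [h', h'']

theorem code_le {K : Type u} (q : Cond K) (α : K) (f : ℕ → ℕ) (hf : StrictMono f)
    (hq : ∀ i, q.val α (f i) = none) (t : ℕ → Prop) : code q α f hf hq t ≤ q := by
  intro k n b hb
  have : ¬ (k = α ∧ ∃ i, f (2 * i) = n) := by
    rintro ⟨rfl, i, rfl⟩
    rw [hq] at hb
    exact absurd hb (by simp)
  simp only [code]
  rw [dif_neg this]
  exact hb

/-- the reading of the names given by the failure of the statement -/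
theorem exists_ext (hF : S_FUS) {K : Type} {p : Cond K} {A : ℕ → (ℕ → Set (Cond K)) → Set (Cond K)}
    (h : ∀ r ≤ p, ∀ y : Finset ℕ → List ℕ → Set (Cond K),
      ∃ r' ≤ r, ∃ b b' : Finset ℕ → List ℕ → Set (Cond K),
        (∀ x : ℕ → Set (Cond K), r' ∈ fiff (InAnN (fun n => meets (x n)) b')
          (fnot (InAnN (fun n => meets (x n)) b))) ∧
        ∀ x : ℕ → Set (Cond K), r' ∈ fiff (InAnN (fun n => meets (x n)) y)
          (InAnN (fun n => InSetN (A n) x) b))
    (r : Cond K) (y : Finset ℕ → List ℕ → Prop) :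
    ∃ (q : Cond K) (b b' : Finset ℕ → List ℕ → Set (Cond K))
      (E : Finset ℕ → List ℕ → Finset (K × ℕ)), r ≤ p → q ≤ r ∧
        (∀ x : ℕ → Set (Cond K), q ∈ fiff (InAnN (fun n => meets (x n)) b')
          (fnot (InAnN (fun n => meets (x n)) b))) ∧
        (∀ x : ℕ → Set (Cond K), q ∈ fiff (InAnN (fun n => meets (x n))
          (fun a l => fground (y a l))) (InAnN (fun n => InSetN (A n) x) b)) ∧
        ∀ a l, ∀ s ≤ q, Decides s (E a l) → s ∈ meets (b' a l) ∨ s ∈ fnot (meets (b' a l)) := by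
  by_cases hr : r ≤ p
  · obtain ⟨r', hr', b, b', h1, h2⟩ := h r hr (fun a l => fground (y a l))
    let D : ℕ → Set (Cond K) := fun n =>
      {s | ∀ a l, Encodable.encode (a, l) = n → s ∈ meets (b' a l) ∨ s ∈ fnot (meets (b' a l))}
    have hD1 : ∀ n, Down (D n) := by
      intro n s hs s' hs' a l hal
      exact down_dec (down_meets _) _ (hs a l hal) _ hs'
    have hD2 : ∀ n, ∀ s ≤ r', ∃ s' ≤ s, s' ∈ D n := by
      intro n s _
      by_cases hn : ∃ a l, Encodable.encode ((a, l) : Finset ℕ × List ℕ) = n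
      · obtain ⟨a, l, hal⟩ := hn
        obtain ⟨s', hs', h'⟩ := dec_dense (φ := meets (b' a l)) s
        refine ⟨s', hs', fun a' l' hal' => ?_⟩
        have := Encodable.encode_injective (hal.trans hal'.symm)
        simp only [Prod.mk.injEq] at this
        rw [← this.1, ← this.2]
        exact h'
      · push Not at hn
        exact ⟨s, le_rfl, fun a l hal => absurd hal (hn a l)⟩
    obtain ⟨q, hq, E, hE⟩ := hF K r' D hD1 hD2
    refine ⟨q, b, b', fun a l => E (Encodable.encode (a, l)), fun _ => ⟨hq.trans hr', ?_, ?_, ?_⟩⟩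
    · exact fun x => down_fiff _ _ _ (h1 x) _ hq
    · exact fun x => down_fiff _ _ _ (h2 x) _ hq
    · intro a l s hs hs'
      exact hE _ s hs hs' a l rfl
  · exact ⟨p, fun _ _ => ∅, fun _ _ => ∅, fun _ _ => ∅, fun h => absurd h hr⟩

open Classical in
/-- `Rd` depends on finitely many points -/
theorem rd_finite {K : Type u} (q : Cond K) (ψ : ℕ → Set (Cond K))
    (c : Finset ℕ → List ℕ → Set (Cond K)) (Eψ : ℕ → Finset (K × ℕ))
    (Ec : Finset ℕ → List ℕ → Finset (K × ℕ)) (S : Set K) (h1 : ∀ n, ∀ d ∈ Eψ n, d.1 ∈ S)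
    (h2 : ∀ a l, ∀ d ∈ Ec a l, d.1 ∈ S) (l : List ℕ) :
    ∃ G : Finset (K × ℕ), (∀ d ∈ G, d.1 ∈ S) ∧
      ∀ z z' : K × ℕ → Bool, (∀ d ∈ G, z d = z' d) → Rd q ψ c Eψ Ec z l → Rd q ψ c Eψ Ec z' l := by
  have hfill : ∀ (z z' : K × ℕ → Bool) (F : Finset (K × ℕ)), (∀ d ∈ F, z d = z' d) →
      fill q z F = fill q z' F := by
    intro z z' F h
    have : (fill q z F).val = (fill q z' F).val := by
      funext k n
      simp only [fill]
      by_cases hk : q.val k n = none ∧ (k, n) ∈ F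
      · rw [if_pos hk, if_pos hk, h _ hk.2]
      · rw [if_neg hk, if_neg hk]
    cases hz : fill q z F
    cases hz' : fill q z' F
    rw [hz, hz'] at this
    simp only at this
    subst this
    rfl
  refine ⟨((Finset.range l.length).biUnion Eψ) ∪
    ((Finset.range l.length).powerset.biUnion fun a => Ec a l), ?_, ?_⟩
  · intro d hd
    simp only [Finset.mem_union, Finset.mem_biUnion] at hd
    rcases hd with ⟨n, _, hd⟩ | ⟨a, _, hd⟩
    · exact h1 n d hd
    · exact h2 a l d hd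
  · intro z z' hzz h a ha
    have h3 : ∀ i, i < l.length → fill q z (Eψ i) = fill q z' (Eψ i) := fun i hi =>
      hfill _ _ _ fun d hd => hzz d (by
        simp only [Finset.mem_union, Finset.mem_biUnion]
        exact Or.inl ⟨i, Finset.mem_range.2 hi, hd⟩)
    have h4 : ∀ i, i ∈ a ↔ i < l.length ∧ fill q z (Eψ i) ∈ ψ i := by
      intro i
      rw [ha i]
      constructor
      · rintro ⟨hi, h⟩
        exact ⟨hi, by rw [h3 i hi]; exact h⟩
      · rintro ⟨hi, h⟩
        exact ⟨hi, by rw [← h3 i hi]; exact h⟩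
    have h5 : a ∈ (Finset.range l.length).powerset :=
      Finset.mem_powerset.2 fun i hi => Finset.mem_range.2 ((h4 i).1 hi).1
    have h6 := h a h4
    rw [hfill z z' (Ec a l)] at h6
    · exact h6
    · intro d hd
      refine hzz d ?_
      simp only [Finset.mem_union, Finset.mem_biUnion]
      exact Or.inr ⟨a, h5, hd⟩

/-- The statement is forced by all conditions. -/
theorem core (hF : S_FUS) (hCl : S_CLOS) (hD : S_DIAG) (hX : S_CPX) (hU : S_UP) (hDn : S_DOWN)
    (hR : S_READ) (hN : S_NAME) (K : Type) (hK : 𝔠 < #K) (p0 : Cond K) :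
    p0 ∈ PhiHolds (Cond K) := by
  by_contra hneg
  obtain ⟨p, -, A, hA⟩ := neg_phi hneg
  have hext := exists_ext hF hA
  choose fq fb fb' fE hf using hext
  -- the closed set of columns
  obtain ⟨M, hM, hM'⟩ := hCl K (fun r y => ({k | ∃ n, (fq r y).val k n ≠ none} ∪
    {k | ∃ n, p.val k n ≠ none}) ∪ {k | ∃ a l, ∃ d ∈ fE r y a l, d.1 = k}) hK (by
      intro r y
      refine ((fq r y).cnt.union p.cnt).union ?_
      have : {k | ∃ a l, ∃ d ∈ fE r y a l, d.1 = k} =
          ⋃ a : Finset ℕ, ⋃ l : List ℕ, ((fun d : K × ℕ => d.1) '' (fE r y a l : Set (K × ℕ))) := by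
        ext k
        simp
      rw [this]
      exact Set.countable_iUnion fun a => Set.countable_iUnion fun l =>
        ((fE r y a l).finite_toSet.image _).countable)
  obtain ⟨y0, hy0⟩ := hD
  have hpM : ∀ k n, p.val k n ≠ none → k ∈ M := by
    intro k n hkn
    exact hM' (Cond.one K) y0 (fun k n h => absurd rfl h) (Or.inl (Or.inr ⟨n, hkn⟩))
  obtain ⟨α, hα⟩ : ∃ α, α ∉ M := by
    by_contra h
    push Not at h
    exact hM (Set.eq_univ_of_forall h)
  -- the generic real and its image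
  let xg : ℕ → Set (Cond K) := fun n => {r | r.val α n = some true}
  have hxg : ∀ n, Down (xg n) := fun n r hr s hs => hs _ _ _ hr
  let ψ : ℕ → Set (Cond K) := fun n => InSetN (A n) xg
  have hψd : ∀ n, Down (ψ n) := fun n => down_InSetN _ _
  have hψm : (fun n => meets (ψ n)) = ψ := funext fun n => meets_InSetN _ _
  obtain ⟨qα, hqα, Eψ, hEψ⟩ := hF K p (fun n => {s | s ∈ ψ n ∨ s ∈ fnot (ψ n)})
    (fun n => down_dec (hψd n)) (fun n r _ => dec_dense r)
  obtain ⟨f, hfm, hfn⟩ := exists_split qα α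
  let e : ℕ → ℕ := fun i => f (2 * i)
  let y : Finset ℕ → List ℕ → Prop := shift e y0
  let rM : Cond K := glue M qα (Cond.one K)
  have hrM : rM ≤ p := by
    intro k n b hb
    have hk : k ∈ M := hpM k n (by rw [hb]; simp)
    rw [glue_mem hk]
    exact hqα _ _ _ hb
  have hrM' : ∀ k n, rM.val k n ≠ none → k ∈ M := by
    intro k n h
    by_contra hk
    rw [glue_not_mem hk] at h
    exact h rfl
  obtain ⟨h1, h2, h3, h4⟩ := hf rM y hrM
  set q1 := fq rM y with hq1
  set b := fb rM y with hb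
  set b' := fb' rM y with hb'
  set E := fE rM y with hE
  have hFM := hM' rM y hrM'
  have hq1M : ∀ k n, q1.val k n ≠ none → k ∈ M := fun k n h => hFM (Or.inl (Or.inl ⟨n, h⟩))
  let qs : Cond K := glue M q1 qα
  have hqs1 : qs ≤ q1 := by
    intro k n c hc
    have hk : k ∈ M := hq1M k n (by rw [hc]; simp)
    rw [glue_mem hk]
    exact hc
  have hqsα : qs ≤ qα := by
    intro k n c hc
    by_cases hk : k ∈ M
    · rw [glue_mem hk]
      refine h1 _ _ _ ?_
      rw [glue_mem hk]
      exact hc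
    · rw [glue_not_mem hk]
      exact hc
  have hqsn : ∀ i, qs.val α (f i) = none := by
    intro i
    rw [glue_not_mem hα]
    exact hfn i
  let S : Set K := (({k | ∃ n, qs.val k n ≠ none} ∪ {α}) ∪ {k | ∃ n, ∃ d ∈ Eψ n, d.1 = k}) ∪
    {k | ∃ a l, ∃ d ∈ E a l, d.1 = k}
  have hS : S.Countable := by
    refine ((qs.cnt.union (Set.countable_singleton α)).union ?_).union ?_
    · have : {k | ∃ n, ∃ d ∈ Eψ n, d.1 = k} =
          ⋃ n : ℕ, ((fun d : K × ℕ => d.1) '' (Eψ n : Set (K × ℕ))) := by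
        ext k
        simp
      rw [this]
      exact Set.countable_iUnion fun n => ((Eψ n).finite_toSet.image _).countable
    · have : {k | ∃ a l, ∃ d ∈ E a l, d.1 = k} =
          ⋃ a : Finset ℕ, ⋃ l : List ℕ, ((fun d : K × ℕ => d.1) '' (E a l : Set (K × ℕ))) := by
        ext k
        simp
      rw [this]
      exact Set.countable_iUnion fun a => Set.countable_iUnion fun l =>
        ((E a l).finite_toSet.image _).countable
  have hEψ' : ∀ n, ∀ r ≤ qs, Decides r (Eψ n) → r ∈ ψ n ∨ r ∈ fnot (ψ n) :=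
    fun n r hr hd => hEψ n r (hr.trans hqsα) hd
  have hE' : ∀ a l, ∀ r ≤ qs, Decides r (E a l) → r ∈ meets (b' a l) ∨ r ∈ fnot (meets (b' a l)) :=
    fun a l r hr hd => h4 a l r (hr.trans hqs1) hd
  obtain ⟨y1, hy1⟩ := hX K qs α e S (Rd qs ψ b' Eψ E) hS (Or.inl (Or.inl (Or.inr rfl)))
    (fun k n h => Or.inl (Or.inl (Or.inl ⟨n, h⟩)))
    (rd_finite qs ψ b' Eψ E S (fun n d hd => Or.inl (Or.inr ⟨n, d, hd, rfl⟩))
      (fun a l d hd => Or.inr ⟨a, l, d, hd, rfl⟩))
  -- the two facts about conditions below `qs`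
  have hfact1 : ∀ r ≤ qs, r ∈ fiff (InAnN ψ b') (fnot (InAnN ψ b)) := by
    intro r hr
    have := h2 ψ
    rw [hψm] at this
    exact down_fiff _ _ _ this _ (hr.trans hqs1)
  have hfact2 : ∀ r ≤ qs, r ∈ fiff (InAnN (fun n => meets (xg n)) (fun a l => fground (y a l)))
      (InAnN ψ b) := fun r hr => down_fiff _ _ _ (h3 xg) _ (hr.trans hqs1)
  have hxgt : ∀ (t : ℕ → Prop) (r : Cond K),
      (∀ i, (t i → r.val α (e i) = some true) ∧ (¬ t i → r.val α (e i) = some false)) →
      ∀ i, (t i → r ∈ meets (xg (e i))) ∧ (¬ t i → r ∈ fnot (meets (xg (e i)))) := by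
    intro t r h i
    refine ⟨fun hi => meets_of_mem ((h i).1 hi), fun hi s hs hs' => ?_⟩
    obtain ⟨s', hs'1, s'', hs'2, hs'3⟩ := hs' s le_rfl
    have h5 : s'.val α (e i) = some true := hs'3 _ _ _ hs'2
    have h6 : s'.val α (e i) = some false := (hs'1.trans hs) _ _ _ ((h i).2 hi)
    rw [h5] at h6
    exact absurd h6 (by simp)
  refine hy0 y1 fun t => ?_
  rw [hy1 t]
  constructor
  · rintro ⟨s, EW, vw, hst, hgood⟩ hty
    have h5 : s ∈ InAnN ψ b' := hN K qs ψ b' Eψ E hψd hEψ' hE' s EW vw hgood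
    obtain ⟨s', hs', h6⟩ := mem_fimp.1 (hfact1 s hgood.1).1 s le_rfl h5
    have h7 : s' ∈ InAnN (fun n => meets (xg n)) (fun a l => fground (y a l)) := by
      refine hU (Cond K) y0 e t _ s' (fun n => down_meets _) ?_ hty
      refine hxgt t s' fun i => ⟨fun hi => hs' _ _ _ ((hst i).1 hi), fun hi =>
        hs' _ _ _ ((hst i).2 hi)⟩
    obtain ⟨s'', hs'', h8⟩ := mem_fimp.1 (hfact2 s' (hs'.trans hgood.1)).1 s' le_rfl h7
    exact h6 s'' hs'' h8
  · intro hty
    classical
    let qt : Cond K := code qs α f hfm hqsn t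
    have hqt : qt ≤ qs := code_le _ _ _ _ _ _
    have hqtv : ∀ i, (t i → qt.val α (e i) = some true) ∧ (¬ t i → qt.val α (e i) = some false) := by
      intro i
      have := code_val qs α f hfm hqsn t i
      constructor
      · intro hi
        rw [show qt.val α (e i) = some (decide (t i)) from this]
        simp [hi]
      · intro hi
        rw [show qt.val α (e i) = some (decide (t i)) from this]
        simp [hi]
    have h5 : qt ∈ fnot (InAnN ψ b) := by
      intro r hr hr'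
      obtain ⟨r', hr1, h6⟩ := mem_fimp.1 (hfact2 r (hr.trans hqt)).2 r le_rfl hr'
      refine hty (hDn (Cond K) y0 e t _ r' (fun n => down_meets _) ?_ h6)
      refine hxgt t r' fun i => ⟨fun hi => (hr1.trans hr) _ _ _ ((hqtv i).1 hi), fun hi =>
        (hr1.trans hr) _ _ _ ((hqtv i).2 hi)⟩
    obtain ⟨q', hq', h6⟩ := mem_fimp.1 (hfact1 qt hqt).2 qt le_rfl h5
    obtain ⟨s, hs, EW, vw, hgood⟩ := hR K qs ψ b' Eψ E hψd hEψ' hE' q' (hq'.trans hqt) h6
    exact ⟨s, EW, vw, fun i => ⟨fun hi => (hs.trans hq') _ _ _ ((hqtv i).1 hi), fun hi =>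
        (hs.trans hq') _ _ _ ((hqtv i).2 hi)⟩, hgood⟩

end Pool.Agent.W684.SG
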