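import Pool.Agent.W684.SG.Core
import Pool.Agent.W684.SG.Ch
import Pool.Agent.W853.SG.Fusion
import Pool.Agent.W540.SG.Clos
import Pool.Agent.W940.SG.Diag
import Pool.Agent.W575.SG.Cpx
import Pool.Agent.W654.SG.Up
import Pool.Agent.W727.SG.Down
import Pool.Agent.W891.SG.Read
import Pool.Agent.W479.SG.Name
import Pool.Agent.W347.SG.Amb

/-!
# Countably generated sigma-algebras and analytic sets: the main theorem
-/

set_option autoImplicit false

namespace Pool.Agent.W684.SG

open Cardinal MeasureTheory

/-- All conditions force the combinatorial statement if there are more than continuum many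
columns. -/
theorem forced (K : Type) (hK : 𝔠 < #K) (p : Cond K) : p ∈ PhiHolds (Cond K) :=
  core Pool.Agent.W853.SG.fusion Pool.Agent.W540.SG.clos Pool.Agent.W940.SG.diag
    (cpx code_iff) Pool.Agent.W654.SG.up Pool.Agent.W727.SG.down
    (Pool.Agent.W891.SG.read Pool.Agent.W853.SG.fusion) Pool.Agent.W479.SG.name K hK p

theorem exists_forcing : ∃ (P : Type) (_ : Preorder P), Nonempty P ∧ ∀ p : P, p ∈ PhiHolds P := by
  refine ⟨Cond (Set (Set ℕ)), inferInstance, ⟨Cond.one _⟩, forced _ ?_⟩
  simp only [Cardinal.mk_set, Cardinal.mk_nat, Cardinal.two_power_aleph0]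
  exact Cardinal.cantor _

end Pool.Agent.W684.SG
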