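import Pool.Agent.W684.SG.Code

/-!
# Abstract projective sets and countably generated sigma-algebras
-/

set_option autoImplicit false

namespace Pool.Agent.W684.SG

open Cardinal MeasureTheory

/-! ### Definitions -/

/-- the sigma-algebra on `E^n` generated by the products `A (m 1) × ... × A (m n)` -/
@[reducible] def rect {E : Type} (A : ℕ → Set E) (n : ℕ) : MeasurableSpace (Fin n → E) :=
  MeasurableSpace.generateFrom {S | ∃ m : Fin n → ℕ, S = {x | ∀ i, x i ∈ A (m i)}}

/-- the image of `S` under the map deleting the last coordinate -/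
def proj {E : Type} {n : ℕ} (S : Set (Fin (n + 1) → E)) : Set (Fin n → E) :=
  {x | ∃ z ∈ S, ∀ i : Fin n, x i = z i.castSucc}

/-- `ProjClass A k n` is the class `P_{k+1}(E^n)`: for `k = 0` the projections of the sets in
`rect A (n + 1)`, and the class of index `k + 1` consists of the projections of the complements of
the sets in the class of index `k` for `n + 1`. -/
def ProjClass {E : Type} (A : ℕ → Set E) : ℕ → (n : ℕ) → Set (Set (Fin n → E))
  | 0, n => {T | ∃ S : Set (Fin (n + 1) → E), MeasurableSet[rect A (n + 1)] S ∧ T = proj S}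
  | k + 1, n => {T | ∃ S : Set (Fin (n + 1) → E), S ∈ ProjClass A k (n + 1) ∧ T = proj Sᶜ}

/-- The set `S` is projective over the sequence `A`. -/
def ProjectiveOver {E : Type} (A : ℕ → Set E) (S : Set E) : Prop :=
  ∃ k : ℕ, {x : Fin 1 → E | x 0 ∈ S} ∈ ProjClass A k 1

/-! ### The combinatorial statement implies the negative answer -/

theorem measurable_pairs (y : Finset ℕ → List ℕ → Prop) : MeasurableSet (Pairs y) :=
  (isClosed_pairs y).measurableSet

/-- a countable family misses an analytic set -/
theorem exists_missed (hPhi : PhiFor) {E : Type} (g : E ≃ (ℕ → Bool)) (B : ℕ → Set E) :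
    ∃ y : Finset ℕ → List ℕ → Prop,
      ¬ MeasurableSet[MeasurableSpace.generateFrom (Set.range B)]
        {x : E | InAn (fun n => g x n = true) y} := by
  classical
  let bl : (ℕ → Prop) → (ℕ → Bool) := fun x n => decide (x n)
  have hbl : ∀ x : ℕ → Prop, (fun n => bl x n = true) = x := by
    intro x
    funext n
    simp [bl]
  obtain ⟨y, hy⟩ := hPhi fun n x => g.symm (bl x) ∈ B n
  refine ⟨y, fun hmeas => ?_⟩
  let F : E → (ℕ → Bool) := fun x n => decide (x ∈ B n)
  have hle : MeasurableSpace.generateFrom (Set.range B) ≤ MeasurableSpace.comap F inferInstance := by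
    refine MeasurableSpace.generateFrom_le ?_
    rintro _ ⟨n, rfl⟩
    refine ⟨{c | c n = true}, ?_, ?_⟩
    · have h1 : Measurable fun c : ℕ → Bool => c n := measurable_pi_apply n
      exact h1 (measurableSet_singleton true)
    · ext x
      simp [F]
  obtain ⟨T, hT, hT'⟩ := hle _ hmeas
  have := polish_bool
  obtain ⟨b, hb⟩ := (code_iff T).1 hT.analyticSet
  obtain ⟨b', hb'⟩ := (code_iff Tᶜ).1 hT.compl.analyticSet
  obtain ⟨x, hx⟩ := hy b b' fun x => by
    have h1 := hb (bl x)
    have h2 := hb' (bl x)
    rw [hbl] at h1 h2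
    rw [← h1, ← h2]
    exact Iff.rfl
  apply hx
  have h3 : g.symm (bl x) ∈ F ⁻¹' T ↔ g.symm (bl x) ∈ {x : E | InAn (fun n => g x n = true) y} := by
    rw [hT']
  simp only [Set.mem_preimage, Set.mem_ofPred_eq, Equiv.apply_symm_apply, hbl] at h3
  rw [← h3, hb]
  have h4 : (fun n => F (g.symm (bl x)) n = true) = fun n => g.symm (bl x) ∈ B n := by
    funext n
    simp [F]
  rw [h4]

theorem projective_neg (hPhi : PhiFor) (E : Type) (hE : #E = 𝔠) :
    ∃ A : ℕ → Set E, ∀ B : ℕ → Set E, ∃ S : Set E, {x : Fin 1 → E | x 0 ∈ S} ∈ ProjClass A 0 1 ∧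
      ¬ MeasurableSet[MeasurableSpace.generateFrom (Set.range B)] S := by
  have h1 : #E = #(ℕ → Bool) := by
    rw [hE]
    simp
  obtain ⟨g⟩ := Cardinal.eq.1 h1
  let A : ℕ → Set E := fun m => Nat.casesOn m Set.univ fun m => {x | g x m = true}
  refine ⟨A, fun B => ?_⟩
  obtain ⟨y, hy⟩ := exists_missed hPhi g B
  refine ⟨_, ?_, hy⟩
  have := polish_bool
  have c1 : #(ℕ → Bool) = 𝔠 := by simp
  have c2 : #(ℕ → ℕ) = 𝔠 := by simp
  have h2 : ¬ Countable (ℕ → ℕ) := by
    intro h
    have := Cardinal.mk_le_aleph0_iff.2 h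
    rw [c2] at this
    exact absurd this (not_le.2 Cardinal.aleph0_lt_continuum)
  have h3 : ¬ Countable (ℕ → Bool) := by
    intro h
    have := Cardinal.mk_le_aleph0_iff.2 h
    rw [c1] at this
    exact absurd this (not_le.2 Cardinal.aleph0_lt_continuum)
  let h : (ℕ → ℕ) ≃ᵐ (ℕ → Bool) := PolishSpace.measurableEquivOfNotCountable h2 h3
  refine ⟨{x | (g (x 0), h.symm (g (x 1))) ∈ Pairs y}, ?_, ?_⟩
  · have hg : ∀ i : Fin 2, @Measurable (Fin 2 → E) (ℕ → Bool) (rect A 2) inferInstance
        fun x => g (x i) := by
      intro i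
      let _ : MeasurableSpace (Fin 2 → E) := rect A 2
      refine measurable_pi_iff.2 fun m => ?_
      refine measurable_to_bool ?_
      refine MeasurableSpace.measurableSet_generateFrom ⟨fun j => if j = i then m + 1 else 0, ?_⟩
      ext x
      simp only [Set.mem_preimage, Set.mem_singleton_iff, Set.mem_ofPred_eq]
      constructor
      · intro hx j
        by_cases hj : j = i
        · rw [if_pos hj, hj]
          exact hx
        · rw [if_neg hj]
          trivial
      · intro hx
        have := hx i
        rw [if_pos rfl] at this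
        exact this
    let _ : MeasurableSpace (Fin 2 → E) := rect A 2
    exact ((hg 0).prodMk (h.symm.measurable.comp (hg 1))) (measurable_pairs y)
  · ext x
    simp only [proj, Set.mem_ofPred_eq]
    constructor
    · rintro ⟨w, hw⟩
      refine ⟨fun i => if i = 0 then x 0 else g.symm (h w), ?_, ?_⟩
      · intro a l ha hl
        refine hw a l ?_ ?_
        · intro i
          simpa using ha i
        · intro i hi
          simpa using hl i hi
      · intro i
        have : i = 0 := Subsingleton.elim _ _
        subst this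
        simp
    · rintro ⟨z, hz, hz'⟩
      refine ⟨h.symm (g (z 1)), fun a l ha hl => hz a l ?_ hl⟩
      intro i
      have := hz' 0
      simp only [Fin.castSucc_zero] at this
      rw [this] at ha
      exact ha i

end Pool.Agent.W684.SG
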