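import Pool.Agent.Helper669.Forcing

/-!
# Countably generated sigma-algebras and analytic sets: definitions and statements
-/

set_option autoImplicit false

namespace Pool.Agent.W684.SG

open Cardinal MeasureTheory Pool.Agent.Helper669.Forcing

universe u v

/-! ### The combinatorial statement -/

/-- The set of natural numbers `x` belongs to the analytic set with code `y`: for some function
`w`, all pairs consisting of `x` cut down to the numbers below `n` and the restriction of `w`
to the numbers below `n` belong to `y`. -/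
def InAn (x : ℕ → Prop) (y : Finset ℕ → List ℕ → Prop) : Prop :=
  ∃ w : ℕ → ℕ, ∀ (a : Finset ℕ) (l : List ℕ),
    (∀ i, i ∈ a ↔ i < l.length ∧ x i) → (∀ i, i < l.length → w i = l.getD i 0) → y a l

/-- For each sequence `A` of sets of sets of natural numbers there is an analytic set (coded
by `y`) which is not the preimage of a Borel set (an analytic set coded by `b` with a complement
coded by `b'`) under the map sending `x` to `{n | x ∈ A n}`. -/
def PhiFor : Prop :=
  ∀ A : ℕ → (ℕ → Prop) → Prop, ∃ y : Finset ℕ → List ℕ → Prop,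
    ∀ b b' : Finset ℕ → List ℕ → Prop, (∀ x : ℕ → Prop, (InAn x b' ↔ ¬ InAn x b)) →
      ∃ x : ℕ → Prop, ¬ (InAn x y ↔ InAn (fun n => A n x) b)

/-! ### Its forcing translation -/

section

variable {P : Type u} [Preorder P]

/-- `φ` if and only if `ψ` -/
def fiff (φ ψ : Set P) : Set P := fand (fimp φ ψ) (fimp ψ φ)

/-- the forcing translation of `∀ i, i ∈ a ↔ i < n ∧ x i` -/
def CutN (a : Finset ℕ) (n : ℕ) (x : ℕ → Set P) : Set P :=
  fall fun i : ℕ => fiff (fground (i ∈ a)) (fand (fground (i < n)) (x i))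

/-- the forcing translation of `InAn`. The set of natural numbers is given by the sentences
`x n`, the code `y` and the function `w` by names. -/
def InAnN (x : ℕ → Set P) (y : Finset ℕ → List ℕ → Set P) : Set P :=
  fex fun w : ℕ → ℕ → Set P => fand (IsFun w)
    (fall fun a : Finset ℕ => fall fun l : List ℕ =>
      fimp (fand (CutN a l.length x)
        (fall fun i : ℕ => fimp (fground (i < l.length)) (meets (w i (l.getD i 0)))))
        (meets (y a l)))

/-- The sets of natural numbers named by `x` and `x'` are equal. -/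
def SameR (x x' : ℕ → Set P) : Set P := fall fun n : ℕ => fiff (meets (x n)) (meets (x' n))

/-- The set of natural numbers named by `x` belongs to the set of sets of natural numbers
named by `A`. -/
def InSetN (A : (ℕ → Set P) → Set P) (x : ℕ → Set P) : Set P :=
  fex fun x' : ℕ → Set P => fand (meets (A x')) (SameR x x')

end

/-- the forcing translation of `PhiFor` -/
def PhiHolds (P : Type u) [Preorder P] : Set P :=
  fall fun A : ℕ → (ℕ → Set P) → Set P => fex fun y : Finset ℕ → List ℕ → Set P =>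
    fall fun b : Finset ℕ → List ℕ → Set P => fall fun b' : Finset ℕ → List ℕ → Set P =>
      fimp (fall fun x : ℕ → Set P =>
          fiff (InAnN (fun n => meets (x n)) b') (fnot (InAnN (fun n => meets (x n)) b)))
        (fex fun x : ℕ → Set P => fnot (fiff (InAnN (fun n => meets (x n)) y)
          (InAnN (fun n => InSetN (A n) x) b)))

/-! ### The forcing notion: the countable support product of Silver forcings -/

/-- The conditions: partial functions from `K × ℕ` to `Bool` with countable support such that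
each column has infinitely many undecided points. -/
structure Cond (K : Type u) where
  /-- the partial function -/
  val : K → ℕ → Option Bool
  /-- countable support -/
  cnt : {k | ∃ n, val k n ≠ none}.Countable
  /-- infinitely many undecided points in each column -/
  inf : ∀ k N, ∃ n, N ≤ n ∧ val k n = none

instance {K : Type u} : Preorder (Cond K) where
  le q p := ∀ k n b, p.val k n = some b → q.val k n = some b
  le_refl _ _ _ _ h := h
  le_trans _ _ _ h h' k n b hb := h k n b (h' k n b hb)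

theorem Cond.le_def {K : Type u} {q p : Cond K} :
    q ≤ p ↔ ∀ k n b, p.val k n = some b → q.val k n = some b := Iff.rfl

open Classical in
/-- the condition `q`, with the undecided points in `F` decided according to `z` -/
noncomputable def fill {K : Type u} (q : Cond K) (z : K × ℕ → Bool) (F : Finset (K × ℕ)) :
    Cond K where
  val k n := if q.val k n = none ∧ (k, n) ∈ F then some (z (k, n)) else q.val k n
  cnt := by
    refine (q.cnt.union ((F.image Prod.fst).countable_toSet)).mono ?_
    rintro k ⟨n, hn⟩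
    by_cases h : q.val k n = none ∧ (k, n) ∈ F
    · exact Or.inr (by simpa using ⟨n, h.2⟩)
    · refine Or.inl ⟨n, ?_⟩
      simpa only [h, if_false] using hn
  inf := by
    intro k N
    obtain ⟨n, hn, h⟩ := q.inf k (N + ((F.image Prod.snd).sup id + 1))
    refine ⟨n, by omega, ?_⟩
    have h' : ¬ (k, n) ∈ F := by
      intro hF
      have : n ≤ (F.image Prod.snd).sup id :=
        Finset.le_sup (f := id) (Finset.mem_image.2 ⟨(k, n), hF, rfl⟩)
      omega
    simp only [h', and_false, if_false, h]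

/-- `q` decides all points of `F` -/
def Decides {K : Type u} (q : Cond K) (F : Finset (K × ℕ)) : Prop :=
  ∀ d ∈ F, q.val d.1 d.2 ≠ none

/-- the total function `z` extends the condition `q` -/
def Extends {K : Type u} (z : K × ℕ → Bool) (q : Cond K) : Prop :=
  ∀ k n b, q.val k n = some b → z (k, n) = b

open Classical in
/-- `s` is a condition below `q`, and for all total `z` which extend `s`, all finite initial
segments `l` of the function `i ↦ vw i (z on EW i)` satisfy `R z l`. -/
def Good {K : Type u} (q : Cond K) (R : (K × ℕ → Bool) → List ℕ → Prop) (s : Cond K)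
    (EW : ℕ → Finset (K × ℕ)) (vw : ℕ → Finset (K × ℕ) → ℕ) : Prop :=
  s ≤ q ∧ ∀ z : K × ℕ → Bool, Extends z s → ∀ l : List ℕ,
    (∀ i, i < l.length → l.getD i 0 = vw i ((EW i).filter fun d => z d = true)) → R z l

/-- `R z l`: the finite sequence `l` and the initial segment of the same length of the set
read from `z` belong to the code read from `z`. -/
def Rd {K : Type u} (q : Cond K) (ψ : ℕ → Set (Cond K)) (c : Finset ℕ → List ℕ → Set (Cond K))
    (Eψ : ℕ → Finset (K × ℕ)) (Ec : Finset ℕ → List ℕ → Finset (K × ℕ))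
    (z : K × ℕ → Bool) (l : List ℕ) : Prop :=
  ∀ a : Finset ℕ, (∀ i, i ∈ a ↔ i < l.length ∧ fill q z (Eψ i) ∈ ψ i) →
    fill q z (Ec a l) ∈ meets (c a l)

open Classical in
/-- the code of the preimage of the set with code `y` under `x ↦ {i | e i ∈ x}` -/
noncomputable def shift (e : ℕ → ℕ) (y : Finset ℕ → List ℕ → Prop) (a : Finset ℕ)
    (l : List ℕ) : Prop :=
  ∀ m, m ≤ l.length → (∀ i, i < m → e i < l.length) →
    y ((Finset.range m).filter fun i => e i ∈ a) (l.take m)

/-! ### The statements -/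

/-- S_FUS: fusion -/
def S_FUS : Prop :=
  ∀ (K : Type) (p : Cond K) (D : ℕ → Set (Cond K)), (∀ n, Down (D n)) →
    (∀ n, ∀ r ≤ p, ∃ s ≤ r, s ∈ D n) →
      ∃ q ≤ p, ∃ E : ℕ → Finset (K × ℕ), ∀ n, ∀ r ≤ q, Decides r (E n) → r ∈ D n

/-- S_CLOS: a proper set of columns closed under an operation on conditions and codes -/
def S_CLOS : Prop :=
  ∀ (K : Type) (F : Cond K → (Finset ℕ → List ℕ → Prop) → Set K), 𝔠 < #K →
    (∀ r y, (F r y).Countable) →
      ∃ M : Set K, M ≠ Set.univ ∧
        ∀ (r : Cond K) (y : Finset ℕ → List ℕ → Prop), (∀ k n, r.val k n ≠ none → k ∈ M) →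
          F r y ⊆ M

/-- S_DIAG: there is an analytic set with a complement which is not analytic -/
def S_DIAG : Prop :=
  ∃ y0 : Finset ℕ → List ℕ → Prop, ∀ y1 : Finset ℕ → List ℕ → Prop,
    ¬ ∀ x : ℕ → Prop, (InAn x y1 ↔ ¬ InAn x y0)

/-- S_CODE: the analytic sets of the Cantor space are the sets with codes -/
def S_CODE : Prop :=
  ∀ T : Set (ℕ → Bool), AnalyticSet T ↔
    ∃ y : Finset ℕ → List ℕ → Prop, ∀ x : ℕ → Bool, x ∈ T ↔ InAn (fun n => x n = true) y

/-- S_CPX: the complexity estimate -/
def S_CPX : Prop :=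
  ∀ (K : Type) (q : Cond K) (α : K) (e : ℕ → ℕ) (S : Set K)
    (R : (K × ℕ → Bool) → List ℕ → Prop), S.Countable → α ∈ S →
    (∀ k n, q.val k n ≠ none → k ∈ S) →
    (∀ l, ∃ G : Finset (K × ℕ), (∀ d ∈ G, d.1 ∈ S) ∧
      ∀ z z' : K × ℕ → Bool, (∀ d ∈ G, z d = z' d) → R z l → R z' l) →
    ∃ y1 : Finset ℕ → List ℕ → Prop, ∀ t : ℕ → Prop,
      InAn t y1 ↔ ∃ (s : Cond K) (EW : ℕ → Finset (K × ℕ)) (vw : ℕ → Finset (K × ℕ) → ℕ),
        (∀ i, (t i → s.val α (e i) = some true) ∧ (¬ t i → s.val α (e i) = some false)) ∧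
          Good q R s EW vw

/-- S_UP: upwards absoluteness -/
def S_UP : Prop :=
  ∀ (P : Type) [Preorder P] (y0 : Finset ℕ → List ℕ → Prop) (e : ℕ → ℕ) (t : ℕ → Prop)
    (x : ℕ → Set P) (q : P), (∀ n, Down (x n)) →
    (∀ i, (t i → q ∈ x (e i)) ∧ (¬ t i → q ∈ fnot (x (e i)))) → InAn t y0 →
      q ∈ InAnN x fun a l => fground (shift e y0 a l)

/-- S_DOWN: downwards absoluteness -/
def S_DOWN : Prop :=
  ∀ (P : Type) [Preorder P] (y0 : Finset ℕ → List ℕ → Prop) (e : ℕ → ℕ) (t : ℕ → Prop)
    (x : ℕ → Set P) (q : P), (∀ n, Down (x n)) →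
    (∀ i, (t i → q ∈ x (e i)) ∧ (¬ t i → q ∈ fnot (x (e i)))) →
      (q ∈ InAnN x fun a l => fground (shift e y0 a l)) → InAn t y0

/-- S_READ: from forcing to continuous readings -/
def S_READ : Prop :=
  ∀ (K : Type) (q : Cond K) (ψ : ℕ → Set (Cond K)) (c : Finset ℕ → List ℕ → Set (Cond K))
    (Eψ : ℕ → Finset (K × ℕ)) (Ec : Finset ℕ → List ℕ → Finset (K × ℕ)),
    (∀ n, Down (ψ n)) →
    (∀ n, ∀ r ≤ q, Decides r (Eψ n) → r ∈ ψ n ∨ r ∈ fnot (ψ n)) →
    (∀ a l, ∀ r ≤ q, Decides r (Ec a l) → r ∈ meets (c a l) ∨ r ∈ fnot (meets (c a l))) →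
    ∀ q' ≤ q, q' ∈ InAnN ψ c → ∃ s ≤ q', ∃ (EW : ℕ → Finset (K × ℕ))
      (vw : ℕ → Finset (K × ℕ) → ℕ), Good q (Rd q ψ c Eψ Ec) s EW vw

/-- S_NAME: from continuous readings to forcing -/
def S_NAME : Prop :=
  ∀ (K : Type) (q : Cond K) (ψ : ℕ → Set (Cond K)) (c : Finset ℕ → List ℕ → Set (Cond K))
    (Eψ : ℕ → Finset (K × ℕ)) (Ec : Finset ℕ → List ℕ → Finset (K × ℕ)),
    (∀ n, Down (ψ n)) →
    (∀ n, ∀ r ≤ q, Decides r (Eψ n) → r ∈ ψ n ∨ r ∈ fnot (ψ n)) →
    (∀ a l, ∀ r ≤ q, Decides r (Ec a l) → r ∈ meets (c a l) ∨ r ∈ fnot (meets (c a l))) →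
    ∀ (s : Cond K) (EW : ℕ → Finset (K × ℕ)) (vw : ℕ → Finset (K × ℕ) → ℕ),
      Good q (Rd q ψ c Eψ Ec) s EW vw → s ∈ InAnN ψ c

/-- S_AMB: the combinatorial statement implies that no countable family of subsets of the unit
interval generates a sigma-algebra containing all analytic sets -/
def S_AMB : Prop :=
  PhiFor → ∀ A : ℕ → Set unitInterval, ∃ S : Set unitInterval, AnalyticSet S ∧
    ¬ MeasurableSet[MeasurableSpace.generateFrom (Set.range A)] S

end Pool.Agent.W684.SG
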